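import Pool.Agent.Helper50.AY.StB

/-!
# Project AY (MP_b3ce06_al), module PRQ: from the presentation to the relations of project AX
-/

set_option autoImplicit false

namespace Pool.Agent.Helper81.AY

open Pool.Agent.Helper50.AY Pool.Agent.Helper43.GD

section grp

variable {G : Type} [Group G]

theorem cpw (g t : G) (n : ℕ) : (g⁻¹ * t * g) ^ n = g⁻¹ * t ^ n * g := by
  have := conj_pow (i := n) (a := g⁻¹) (b := t)
  rwa [inv_inv] at this

theorem cpw' (g t : G) (n : ℕ) : (g * t * g⁻¹) ^ n = g * t ^ n * g⁻¹ := conj_pow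

theorem cjp {g t : G} {m : ℕ} (h : g⁻¹ * t * g = t ^ m) (j : ℕ) :
    (g ^ j)⁻¹ * t * g ^ j = t ^ (m ^ j) := by
  induction j with
  | zero => simp
  | succ j ih =>
    calc (g ^ (j + 1))⁻¹ * t * g ^ (j + 1) = g⁻¹ * ((g ^ j)⁻¹ * t * g ^ j) * g := by
          rw [pow_succ]; group
      _ = (g⁻¹ * t * g) ^ (m ^ j) := by rw [ih, cpw]
      _ = _ := by rw [h, ← pow_mul, pow_succ']

theorem cj_inv (a t : G) (i : ℤ) : cj a⁻¹ t i = (cj a t i)⁻¹ := by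
  unfold cj
  rw [mul_inv_rev, mul_inv_rev, zpow_neg, inv_inv, mul_assoc]

end grp

theorem hPRQ (h1 : Pool.Agent.Helper43.AX.StCA) : StPRQ := by
  intro p q k hp hq hk G _ a' b' t ⟨hb, ht, hS⟩ hcl
  obtain ⟨w, hw⟩ : ∃ w : G, w = a' * b' * a' := ⟨_, rfl⟩
  obtain ⟨κ, hκ⟩ : ∃ κ : G, κ = (a' * b') ^ 3 := ⟨_, rfl⟩
  rw [← hw] at ht
  rw [← hκ] at hS
  have hww : κ = w * w := by
    calc κ = (a' * b' * a') * (b' * a' * b') := by rw [hκ, pow_three]; group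
      _ = w * w := by rw [← hb, ← hw]
  have hwa : w * a' = b' * w := by
    calc w * a' = (b' * a' * b') * a' := by rw [← hb, ← hw]
      _ = b' * w := by rw [hw]; group
  have hwb : w * b' = a' * w := by
    calc w * b' = a' * (b' * a' * b') := by rw [hw]; group
      _ = a' * w := by rw [← hb, ← hw]
  have hκa : Commute κ a' := by
    show κ * a' = a' * κ
    rw [hww, mul_assoc, hwa, ← mul_assoc, hwb, mul_assoc]
  have hκb : Commute κ b' := by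
    show κ * b' = b' * κ
    rw [hww, mul_assoc, hwb, ← mul_assoc, hwa, mul_assoc]
  have hκw : Commute κ w := by
    rw [hw]
    exact (hκa.mul_right hκb).mul_right hκa
  have hκt : κ⁻¹ * t * κ = t ^ (q ^ 2) := by
    calc κ⁻¹ * t * κ = w⁻¹ * (w⁻¹ * t * w) * w := by rw [hww]; group
      _ = (w⁻¹ * t ^ q * w)⁻¹ := by rw [ht]; group
      _ = ((w⁻¹ * t * w) ^ q)⁻¹ := by rw [cpw]
      _ = t ^ (q ^ 2) := by rw [ht, inv_pow, inv_inv, ← pow_mul, sq]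
  obtain ⟨a₀, ha₀⟩ : ∃ a₀ : G, a₀ = a' * κ ^ (-k) := ⟨_, rfl⟩
  obtain ⟨b₀, hb₀⟩ : ∃ b₀ : G, b₀ = b' * κ ^ (-k) := ⟨_, rfl⟩
  rw [← ha₀] at hS
  have hca : Commute (κ ^ (-k)) a' := hκa.zpow_left _
  have hcb : Commute (κ ^ (-k)) b' := hκb.zpow_left _
  have hcw : Commute (κ ^ (-k)) w := hκw.zpow_left _
  have hκa₀ : Commute κ a₀ := by
    rw [ha₀]
    exact hκa.mul_right ((Commute.refl κ).zpow_right _)
  have hκb₀ : Commute κ b₀ := by
    rw [hb₀]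
    exact hκb.mul_right ((Commute.refl κ).zpow_right _)
  have hv : a₀ * b₀ * a₀ = w * κ ^ (-(3 * k)) := by
    have e : κ ^ (-(3 * k)) = κ ^ (-k) * κ ^ (-k) * κ ^ (-k) := by
      rw [← zpow_add, ← zpow_add]
      congr 1
      ring
    rw [e, ha₀, hb₀, hw]
    calc a' * κ ^ (-k) * (b' * κ ^ (-k)) * (a' * κ ^ (-k))
        = a' * (κ ^ (-k) * b') * (κ ^ (-k) * a') * κ ^ (-k) := by group
      _ = a' * (b' * κ ^ (-k)) * (a' * κ ^ (-k)) * κ ^ (-k) := by rw [hca.eq, hcb.eq]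
      _ = a' * b' * (κ ^ (-k) * a') * κ ^ (-k) * κ ^ (-k) := by group
      _ = a' * b' * (a' * κ ^ (-k)) * κ ^ (-k) * κ ^ (-k) := by rw [hca.eq]
      _ = _ := by group
  have hv' : b₀ * a₀ * b₀ = w * κ ^ (-(3 * k)) := by
    have e : κ ^ (-(3 * k)) = κ ^ (-k) * κ ^ (-k) * κ ^ (-k) := by
      rw [← zpow_add, ← zpow_add]
      congr 1
      ring
    rw [e, ha₀, hb₀, hw, hb]
    calc b' * κ ^ (-k) * (a' * κ ^ (-k)) * (b' * κ ^ (-k))
        = b' * (κ ^ (-k) * a') * (κ ^ (-k) * b') * κ ^ (-k) := by group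
      _ = b' * (a' * κ ^ (-k)) * (b' * κ ^ (-k)) * κ ^ (-k) := by rw [hca.eq, hcb.eq]
      _ = b' * a' * (κ ^ (-k) * b') * κ ^ (-k) * κ ^ (-k) := by group
      _ = b' * a' * (b' * κ ^ (-k)) * κ ^ (-k) * κ ^ (-k) := by rw [hcb.eq]
      _ = _ := by group
  have hCA := h1 G (q ^ 2) a₀ t κ hκa₀.eq hκt hS
  -- closure
  have hclo : ∀ a b : G, (a₀ ∈ Subgroup.closure {a, b, t, κ}) →
      (b₀ ∈ Subgroup.closure {a, b, t, κ}) →
      Subgroup.closure {a, b, t, κ} = (⊤ : Subgroup G) := by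
    intro a b ha hb'
    rw [eq_top_iff, ← hcl, Subgroup.closure_le]
    have h2 : κ ∈ Subgroup.closure {a, b, t, κ} := Subgroup.subset_closure (by simp)
    have h3 : t ∈ Subgroup.closure {a, b, t, κ} := Subgroup.subset_closure (by simp)
    have h4 : a' = a₀ * κ ^ k := by rw [ha₀, mul_assoc, ← zpow_add, neg_add_cancel, zpow_zero, mul_one]
    have h5 : b' = b₀ * κ ^ k := by rw [hb₀, mul_assoc, ← zpow_add, neg_add_cancel, zpow_zero, mul_one]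
    intro y hy
    simp only [Set.mem_insert_iff, Set.mem_singleton_iff] at hy
    rcases hy with rfl | rfl | rfl
    · rw [h4]
      exact Subgroup.mul_mem _ ha (Subgroup.zpow_mem _ h2 _)
    · rw [h5]
      exact Subgroup.mul_mem _ hb' (Subgroup.zpow_mem _ h2 _)
    · exact h3
  rcases le_or_gt k 0 with hk0 | hk0
  · -- 6k - 1 = -p
    obtain ⟨j, hj⟩ : ∃ j : ℕ, k = -(j : ℤ) := ⟨k.natAbs, by omega⟩
    have hpj : p = 6 * j + 1 := by omega
    have e3 : κ ^ (-(3 * k)) = κ ^ (3 * j) := by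
      rw [← zpow_natCast]
      congr 1
      rw [hj]
      push_cast
      ring
    rw [e3] at hv hv'
    refine ⟨a₀, b₀, κ, ⟨?_, hκa₀.eq, hκb₀.eq, hκt, ?_, ?_, hS⟩, hclo _ _ (Subgroup.subset_closure (by simp))
      (Subgroup.subset_closure (by simp))⟩
    · rw [hv, hv']
    · rw [hv]
      calc (w * κ ^ (3 * j))⁻¹ * t * (w * κ ^ (3 * j))
          = (κ ^ (3 * j))⁻¹ * (w⁻¹ * t * w) * κ ^ (3 * j) := by group
        _ = ((κ ^ (3 * j))⁻¹ * t ^ q * κ ^ (3 * j))⁻¹ := by rw [ht]; group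
        _ = (((κ ^ (3 * j))⁻¹ * t * κ ^ (3 * j)) ^ q)⁻¹ := by rw [cpw]
        _ = (t ^ (q ^ p))⁻¹ := by
          rw [cjp hκt, ← pow_mul, ← pow_mul, ← pow_succ, hpj]
          congr 3
          ring
    · rw [hv]
      have h2 : Commute (κ ^ (3 * j)) w := hκw.pow_left _
      calc w * κ ^ (3 * j) * (w * κ ^ (3 * j)) = w * (κ ^ (3 * j) * w) * κ ^ (3 * j) := by group
        _ = w * (w * κ ^ (3 * j)) * κ ^ (3 * j) := by rw [h2.eq]
        _ = (w * w) * (κ ^ (3 * j) * κ ^ (3 * j)) := by group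
        _ = κ ^ p := by
          rw [← hww, ← pow_add, ← pow_succ', hpj]
          congr 1
          ring
  · -- 6k - 1 = p
    obtain ⟨j, hj⟩ : ∃ j : ℕ, k = (j : ℤ) := ⟨k.natAbs, by omega⟩
    have hj1 : 1 ≤ j := by omega
    have hpj : p + 1 = 6 * j := by omega
    have e3 : κ ^ (-(3 * k)) = (κ ^ (3 * j))⁻¹ := by
      rw [zpow_neg, ← zpow_natCast]
      congr 2
      rw [hj]
      push_cast
      ring
    rw [e3] at hv hv'
    have hwt : w * t ^ q * w⁻¹ = t⁻¹ := by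
      have h2 : t ^ q = (w⁻¹ * t * w)⁻¹ := by rw [ht, inv_inv]
      rw [h2]
      group
    have e1 : a₀⁻¹ * b₀⁻¹ * a₀⁻¹ = κ ^ (3 * j) * w⁻¹ := by
      calc a₀⁻¹ * b₀⁻¹ * a₀⁻¹ = (a₀ * b₀ * a₀)⁻¹ := by group
        _ = _ := by rw [hv, mul_inv_rev, inv_inv]
    have e2 : b₀⁻¹ * a₀⁻¹ * b₀⁻¹ = κ ^ (3 * j) * w⁻¹ := by
      calc b₀⁻¹ * a₀⁻¹ * b₀⁻¹ = (b₀ * a₀ * b₀)⁻¹ := by group
        _ = _ := by rw [hv', mul_inv_rev, inv_inv]
    refine ⟨a₀⁻¹, b₀⁻¹, κ, ⟨?_, hκa₀.inv_right.eq, hκb₀.inv_right.eq, hκt, ?_, ?_, ?_⟩,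
      hclo _ _ ?_ ?_⟩
    · rw [e1, e2]
    · rw [e1]
      calc (κ ^ (3 * j) * w⁻¹)⁻¹ * t * (κ ^ (3 * j) * w⁻¹)
          = w * ((κ ^ (3 * j))⁻¹ * t * κ ^ (3 * j)) * w⁻¹ := by group
        _ = w * (t ^ q) ^ (q ^ p) * w⁻¹ := by
          rw [cjp hκt, ← pow_mul, ← pow_mul, ← pow_succ', hpj]
          congr 3
          ring
        _ = (w * t ^ q * w⁻¹) ^ (q ^ p) := by rw [cpw']
        _ = (t ^ (q ^ p))⁻¹ := by rw [hwt, inv_pow]
    · rw [e1]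
      have h2 : Commute (κ ^ (3 * j)) w⁻¹ := (hκw.pow_left _).inv_right
      calc κ ^ (3 * j) * w⁻¹ * (κ ^ (3 * j) * w⁻¹) = κ ^ (3 * j) * (w⁻¹ * κ ^ (3 * j)) * w⁻¹ := by
            group
        _ = κ ^ (3 * j) * (κ ^ (3 * j) * w⁻¹) * w⁻¹ := by rw [h2.eq]
        _ = κ ^ (3 * j) * κ ^ (3 * j) * (w * w)⁻¹ := by group
        _ = κ ^ (p + 1) * κ⁻¹ := by
          rw [← hww, ← pow_add, hpj]
          congr 2
          ring
        _ = κ ^ p := by rw [pow_succ, mul_inv_cancel_right]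
    · rw [cj_inv, cj_inv, hS, mul_inv_rev]
      have h2 := hCA 0 1
      have h3 : cj a₀ t 0 = a₀ := by simp [cj]
      rw [h3] at h2
      have h4 : Commute a₀ (cj a₀ t 1) := h2
      exact h4.inv_inv.eq.symm
    · have h2 : a₀⁻¹ ∈ Subgroup.closure {a₀⁻¹, b₀⁻¹, t, κ} := Subgroup.subset_closure (by simp)
      simpa using Subgroup.inv_mem _ h2
    · have h2 : b₀⁻¹ ∈ Subgroup.closure {a₀⁻¹, b₀⁻¹, t, κ} := Subgroup.subset_closure (by simp)
      simpa using Subgroup.inv_mem _ h2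

end Pool.Agent.Helper81.AY
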